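import Pool.Agent.H90.STE.Stmts

/-!
# STE, row CO: the core for one vertex
-/

set_option autoImplicit false

namespace Pool.STE

open Finset Real
open Pool.Agent.H49.Ent Pool.Agent.H32.Dense Pool.STK Pool.KA

/-- **CO**. -/
theorem co (hVB : VBStmt) (hCR : CRStmt) (hSD : SDStmt) (hTS : TSStmt) (hSPC : SPCStmt)
    (hHT : HTStmt) : COStmt := by
  intro m a R η ε ε₁ θ₁ e N k F ha hN he hG1 hG2 hε heθ hε2 heθ2 hTm hS hmax
  have ha0 : 0 < a := by linarith
  have hv := hVB m a R η ε ε₁ θ₁ e N k F ha.le hG1 hε heθ hTm hS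
  have hv0 : ∀ r < N, 0 ≤ (R + η) * k + a * (cc m + e) - vT a F k r := by
    intro r hr
    have := hv r hr
    linarith
  have hcr := hCR m a R η ε ε₁ θ₁ e N k F ha.le hN hG1 hε heθ hTm hS hmax
  have hsd := hSD m a R η ε ε₁ θ₁ e N k F ha.le hN he hG2 hTm hS hε2 heθ2
  have hkJ : k ≤ N * k := Nat.le_mul_of_pos_left k (by omega)
  have hts := hTS m (N * k) F k N hkJ
  set S1 : ℝ := ∑ r ∈ Finset.range N, ((R + η) * k + a * (cc m + e) - vT a F k r) with hS1
  set S2 : ℝ := ∑ r ∈ Finset.range N, (iT F k r + cc m) with hS2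
  have hS10 : 0 ≤ S1 := Finset.sum_nonneg fun r hr => hv0 r (Finset.mem_range.1 hr)
  have hS20 : 0 ≤ S2 := by
    refine Finset.sum_nonneg fun r _ => ?_
    have := hSPC m (N * k) F k r
    linarith
  have hq : qT F k N = S2 + 2 * N * cc m := by
    unfold qT
    rw [hS2, Finset.sum_add_distrib, Finset.sum_add_distrib]
    simp only [Finset.sum_const, Finset.card_range, nsmul_eq_mul]
    ring
  have haS2 : a * S2 ≤ B1 m a η ε e N k := by linarith
  have hj : (a - 1) * jT F k N ≤ B2T m a η ε e N k := by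
    rw [hq] at hsd
    unfold B2T
    nlinarith [hsd, hmax, haS2]
  have hj2 : jT F k N ≤ B2T m a η ε e N k / (a - 1) := by
    rw [le_div_iff₀ (by linarith)]
    linarith
  have hq2 : qT F k N ≤ (B1 m a η ε e N k + 2 * a * N * cc m) / a := by
    rw [le_div_iff₀ ha0, hq]
    nlinarith [haS2]
  refine ⟨hv0, ?_, fun r _ => hHT m (N * k) F k r, ?_⟩
  · have : 0 ≤ a * S2 := mul_nonneg ha0.le hS20
    linarith
  · unfold B3T
    linarith

end Pool.STE
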