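import Pool.Agent.H90.STE.Stmts

/-!
# STE, row HT: the doubling is nonnegative
-/

set_option autoImplicit false

namespace Pool.STE

open Finset Real
open Pool.Agent.H49.Ent Pool.Agent.H32.Dense Pool.STK Pool.KA

/-- **HT**. -/
theorem ht : HTStmt := by
  intro m J F k r
  set X : F.Ω → Fin m → ℤ := F.X ((r + 1) * k) with hX
  set b := bT F k r with hb
  have hp := F.isLaw
  have hq : ∀ w, 0 ≤ dbl F.p b w := dbl_nonneg hp.nonneg
  have h1 : CH (dbl F.p b) (fun w => X w.2 - X w.1) (fun w => (b w.2, w.1)) ≤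
      CH (dbl F.p b) (fun w => X w.2 - X w.1) (fun w => b w.1) :=
    CH_mono_cond hq fun w w' _ _ e => congrArg b (Prod.ext_iff.mp e).2
  have h2 : CH (dbl F.p b) (fun w => X w.2 - X w.1) (fun w => (b w.2, w.1)) =
      CH (dbl F.p b) (fun w => X w.2) (fun w => (b w.2, w.1)) := by
    refine CH_congr hq ?_ ?_ (fun _ _ _ _ h => h) (fun _ _ _ _ h => h)
    · intro w w' _ _ e
      simp only [Prod.mk.injEq] at e
      obtain ⟨e1, -, e3⟩ := e
      rw [e3] at e1
      exact sub_left_inj.mp e1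
    · intro w w' _ _ e
      simp only [Prod.mk.injEq] at e
      obtain ⟨e1, -, e3⟩ := e
      simp only [e1, e3]
  have h3 : CH (dbl F.p b) (fun w => X w.2) (fun w => (b w.2, w.1)) = CH F.p X b :=
    CH_dbl_2 hp.nonneg X (fun ω => ω)
  have h4 : hT F k r = CH (dbl F.p b) (fun w => X w.2 - X w.1) (fun w => b w.1) -
      CH F.p X b := rfl
  rw [h4]
  linarith

end Pool.STE
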