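import Pool.Agent.H90.STE.Stmts

/-!
# STE, row IR: the iteration
-/

set_option autoImplicit false

namespace Pool.STE

open Finset Real
open Pool.Agent.H49.Ent Pool.Agent.H32.Dense Pool.STK Pool.KA

namespace IR78

/-- Entropy of a bounded vector of integer vectors. -/
theorem H_le_of_bdq {m n : ℕ} {Ω : Type} [Fintype Ω] {p : Ω → ℝ} (hp : IsLaw p)
    (A : Ω → QL m n) (M : ℝ) (hM : 1 ≤ M) (hA : BdQ A M) :
    H p A ≤ m * (n + 1) * Real.log (2 * M + 1) := by
  classical
  set K : ℤ := ⌊M⌋ with hK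
  have hK0 : 0 ≤ K := Int.floor_nonneg.2 (by linarith)
  set F : Finset (QL m n) :=
    (Fintype.piFinset fun _ : Fin m => Finset.Icc (-K) K) ×ˢ
      (Fintype.piFinset fun _ : Fin n => Fintype.piFinset fun _ : Fin m => Finset.Icc (-K) K)
    with hF
  have hmem : ∀ x : ℤ, |(x : ℝ)| ≤ M → x ∈ Finset.Icc (-K) K := by
    intro x hx
    rw [abs_le] at hx
    rw [Finset.mem_Icc]
    constructor
    · have : -x ≤ K := by
        rw [hK, Int.le_floor]; push_cast; linarith
      linarith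
    · rw [hK, Int.le_floor]; exact hx.2
  have h1 : H p A ≤ Real.log F.card := by
    refine H_le_log_card hp.nonneg hp.sum_one A F (fun ω _ => ?_)
    rw [hF, Finset.mem_product, Fintype.mem_piFinset, Fintype.mem_piFinset]
    refine ⟨fun c => hmem _ (hA ω c).1, fun i => ?_⟩
    rw [Fintype.mem_piFinset]
    exact fun c => hmem _ ((hA ω c).2 i)
  refine h1.trans ?_
  have hcard : (F.card : ℝ) = (2 * (K : ℝ) + 1) ^ (m * (n + 1)) := by
    rw [hF, Finset.card_product, Fintype.card_piFinset, Fintype.card_piFinset]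
    simp only [Fintype.card_piFinset, Int.card_Icc, Finset.prod_const, Finset.card_univ,
      Fintype.card_fin]
    have h2 : ((K + 1 - -K).toNat : ℝ) = 2 * (K : ℝ) + 1 := by
      have h3 : (((K + 1 - -K).toNat : ℤ) : ℝ) = 2 * (K : ℝ) + 1 := by
        rw [Int.toNat_of_nonneg (by linarith)]
        push_cast; ring
      exact_mod_cast h3
    push_cast
    rw [h2, Nat.mul_succ, pow_add, pow_mul]
    ring
  rw [hcard, Real.log_pow]
  push_cast
  have hKM : (K : ℝ) ≤ M := Int.floor_le M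
  have hK0' : (0 : ℝ) ≤ K := by exact_mod_cast hK0
  apply mul_le_mul_of_nonneg_left _ (by positivity)
  exact Real.log_le_log (by linarith) (by linarith)

lemma one_le_KQ (n : ℕ) (hn : 1 ≤ n) : 1 ≤ KQ n := by
  unfold KQ
  have h := Nat.choose_lt_two_pow n (n / 2) (by omega)
  have h' : n.choose (n / 2) + 1 ≤ 2 ^ n := h
  have h2 : ((n.choose (n / 2) : ℝ)) + 1 ≤ 2 ^ n := by exact_mod_cast h'
  linarith

end IR78

open IR78 in
/-- **IR**. -/
theorem ir (hKQ : KQStmt) (hTP : TPStmt) (hCTH : CTHStmt) : IRStmt := by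
  intro m n hn
  obtain ⟨C, hC, hkey⟩ := hKQ m n hn
  refine ⟨C, hC, ?_⟩
  intro h i₀ hh Ω₀ _ p₀ x g σ hp₀ hσ S
  have hKQ1 : 1 ≤ KQ n := one_le_KQ n hn
  have h2n : (1 : ℝ) ≤ 2 ^ n := one_le_pow₀ (by norm_num)
  have hpow : ∀ s : ℕ, (1 : ℝ) ≤ ((2 : ℝ) ^ n) ^ s := fun s => one_le_pow₀ h2n
  induction S with
  | zero =>
    intro Ω _ p A y M E D hp hM hE hA hCl hD hctl hg hlog
    have := H_le_of_bdq hp A M hM hA
    simp only [pow_zero, one_mul, Nat.cast_zero, zero_mul, add_zero] at hlog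
    linarith
  | succ S ih =>
    intro Ω _ p A y M E D hp hM hE hA hCl hD hctl hg hlog
    obtain ⟨hTl, hTc, hTh, hTb, hTq⟩ := hTP m n Ω₀ Ω p₀ p A hp₀ hp
    by_cases hcase : H (prd p) (TQ A) - H p A ≤ σ
    · have key := hkey Ω p A h y E i₀ hp hh hE hCl
      have h1 : H p (fun ω => (A ω).2 i₀) ≤ H p A :=
        H_comp_le hp.nonneg A (fun q : QL m n => q.2 i₀)
      have h2 : ∑ w : Finset (Fin n), H p (fun ω => evq w (A ω)) ≤
          ∑ w : Finset (Fin n), (H p₀ (x w) + ((2 : ℝ) ^ n) ^ (S + 1) * D w) := by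
        apply Finset.sum_le_sum
        intro w _
        have h3 := hCTH Ω₀ Ω (Fin m → ℤ) p₀ p (x w) (fun ω => evq w (A ω)) (D w) hp₀ hp (hctl w)
        have h4 : D w ≤ ((2 : ℝ) ^ n) ^ (S + 1) * D w := le_mul_of_one_le_left (hD w) (hpow _)
        linarith
      have h5 : ((2 : ℝ) ^ n - 1) * (H (prd p) (TQ A) - H p A) ≤ ((2 : ℝ) ^ n - 1) * σ :=
        mul_le_mul_of_nonneg_left hcase (by linarith)
      have h6 : (KQ n - 1) * g ≤ (KQ n - 1) * H p (fun ω => (A ω).2 i₀) :=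
        mul_le_mul_of_nonneg_left hg (by linarith)
      have h7 : Real.log E ≤ Real.log (((2 : ℝ) ^ n) ^ (S + 1) * E) := by
        refine Real.log_le_log (by linarith) ?_
        exact le_mul_of_one_le_left (by linarith) (hpow _)
      have h8 : C * (1 + Real.log E + ∑ i, Real.log (1 / |h i|)) ≤
          C * (1 + Real.log (((2 : ℝ) ^ n) ^ (S + 1) * E) + ∑ i, Real.log (1 / |h i|)) :=
        mul_le_mul_of_nonneg_left (by linarith) hC
      have h9 : KQ n * g = (KQ n - 1) * g + g := by ring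
      rw [h9]
      linarith
    · push Not at hcase
      have h0 : (0 : ℝ) ≤ 2 ^ n := by linarith
      have hM' : 1 ≤ (2 : ℝ) ^ n * M := by nlinarith
      have hE' : 1 ≤ (2 : ℝ) ^ n * E := by nlinarith
      have hr := ih (Finset (Fin n) → Ω) (prd p) (TQ A) (fun v => ∑ x, y (v x))
        ((2 : ℝ) ^ n * M) ((2 : ℝ) ^ n * E)
        (fun w => (2 : ℝ) ^ n * D w) hTl hM' hE' (hTb M hA) (hTq h y E hCl)
        (fun w => mul_nonneg h0 (hD w))
        (fun w => hTc (x w) (D w) w (hctl w)) (hg.trans (hTh i₀)) (by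
          have e1 : ((2 : ℝ) ^ n) ^ S * ((2 : ℝ) ^ n * M) = ((2 : ℝ) ^ n) ^ (S + 1) * M := by
            rw [pow_succ]; ring
          rw [e1]
          push_cast at hlog
          linarith)
      have e2 : ∀ w, ((2 : ℝ) ^ n) ^ S * ((2 : ℝ) ^ n * D w) =
          ((2 : ℝ) ^ n) ^ (S + 1) * D w := fun w => by rw [pow_succ]; ring
      have e3 : ((2 : ℝ) ^ n) ^ S * ((2 : ℝ) ^ n * E) = ((2 : ℝ) ^ n) ^ (S + 1) * E := by
        rw [pow_succ]; ring
      rw [e3] at hr
      simpa only [e2] using hr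

end Pool.STE
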